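import Mathlib

set_option autoImplicit false

/-!
# Flips of simplicial complexes and their effect on the geometric realization

`Real F` is the geometric realization (in barycentric coordinates) of the complex generated by a
family `F` of faces.  We show that a generalized bistellar flip does not change the realization up
to homeomorphism, and that the realization of a 4-simplex is homeomorphic to the closed 4-ball.
-/

namespace Pool.Agent.Hhelper45

open Finset

variable {N : ℕ}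

/-- The geometric realization of the complex generated by the family `F`. -/
def RealOf (F : Set (Finset (Fin N))) : Set (Fin N → ℝ) :=
  {x | (∀ i, 0 ≤ x i) ∧ ∑ i, x i = 1 ∧ ∃ σ ∈ F, ∀ i, i ∉ σ → x i = 0}

/-- The smallest coordinate on `σ`. -/
noncomputable def mn (σ : Finset (Fin N)) (hσ : σ.Nonempty) (x : Fin N → ℝ) : ℝ :=
  σ.inf' hσ x

/-- The flip map: moves as much mass as possible uniformly from `σ` to `τ`. -/
noncomputable def fl (σ τ : Finset (Fin N)) (hσ : σ.Nonempty) (x : Fin N → ℝ) : Fin N → ℝ :=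
  fun i => x i - (if i ∈ σ then mn σ hσ x else 0) +
    (if i ∈ τ then (σ.card : ℝ) * mn σ hσ x / τ.card else 0)

theorem continuous_mn (σ : Finset (Fin N)) (hσ : σ.Nonempty) : Continuous (mn σ hσ) := by
  unfold mn
  exact Continuous.finset_inf'_apply hσ (fun i _ => continuous_apply i)

theorem continuous_fl (σ τ : Finset (Fin N)) (hσ : σ.Nonempty) : Continuous (fl σ τ hσ) := by
  refine continuous_pi fun i => ?_
  unfold fl
  have h := continuous_mn σ hσ
  refine ((continuous_apply i).sub ?_).add ?_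
  · split_ifs
    · exact h
    · exact continuous_const
  · split_ifs
    · exact (continuous_const.mul h).div_const _
    · exact continuous_const

theorem mn_le (σ : Finset (Fin N)) (hσ : σ.Nonempty) (x : Fin N → ℝ) {i : Fin N} (hi : i ∈ σ) :
    mn σ hσ x ≤ x i := Finset.inf'_le _ hi

theorem exists_mn (σ : Finset (Fin N)) (hσ : σ.Nonempty) (x : Fin N → ℝ) :
    ∃ i ∈ σ, x i = mn σ hσ x := by
  obtain ⟨i, hi, h⟩ := Finset.exists_mem_eq_inf' hσ x
  exact ⟨i, hi, h.symm⟩

theorem mn_nonneg (σ : Finset (Fin N)) (hσ : σ.Nonempty) (x : Fin N → ℝ) (hx : ∀ i, 0 ≤ x i) :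
    0 ≤ mn σ hσ x := by
  obtain ⟨i, _, h⟩ := exists_mn σ hσ x
  rw [← h]; exact hx i

theorem mn_eq_zero (σ : Finset (Fin N)) (hσ : σ.Nonempty) (x : Fin N → ℝ) (hx : ∀ i, 0 ≤ x i)
    {i : Fin N} (hi : i ∈ σ) (h0 : x i = 0) : mn σ hσ x = 0 :=
  le_antisymm (h0 ▸ mn_le σ hσ x hi) (mn_nonneg σ hσ x hx)

theorem mn_eq_of (σ : Finset (Fin N)) (hσ : σ.Nonempty) (x : Fin N → ℝ) (c : ℝ)
    (h1 : ∀ i ∈ σ, c ≤ x i) (h2 : ∃ i ∈ σ, x i = c) : mn σ hσ x = c := by
  obtain ⟨i, hi, h⟩ := h2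
  refine le_antisymm (h ▸ mn_le σ hσ x hi) ?_
  obtain ⟨j, hj, h'⟩ := exists_mn σ hσ x
  rw [← h']; exact h1 j hj

theorem fl_fl (σ τ : Finset (Fin N)) (hσ : σ.Nonempty) (hτ : τ.Nonempty) (hd : Disjoint σ τ)
    (x : Fin N → ℝ) (hx : ∀ i, 0 ≤ x i) (h0 : ∃ j ∈ τ, x j = 0) :
    fl τ σ hτ (fl σ τ hσ x) = x := by
  have hcσ : (σ.card : ℝ) ≠ 0 := by exact_mod_cast (Finset.card_pos.2 hσ).ne'
  have hcτ : (τ.card : ℝ) ≠ 0 := by exact_mod_cast (Finset.card_pos.2 hτ).ne'
  set m := mn σ hσ x with hm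
  have hval : ∀ j ∈ τ, fl σ τ hσ x j = x j + (σ.card : ℝ) * m / τ.card := by
    intro j hj
    have hj' : j ∉ σ := fun h => (Finset.disjoint_left.1 hd h) hj
    simp [fl, hj, hj', hm]
  have hmn : mn τ hτ (fl σ τ hσ x) = (σ.card : ℝ) * m / τ.card := by
    apply mn_eq_of
    · intro j hj
      rw [hval j hj]
      linarith [hx j]
    · obtain ⟨j, hj, hj0⟩ := h0
      exact ⟨j, hj, by rw [hval j hj, hj0, zero_add]⟩
  funext i
  unfold fl
  rw [show mn τ hτ (fun i => x i - (if i ∈ σ then mn σ hσ x else 0) +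
    (if i ∈ τ then (σ.card : ℝ) * mn σ hσ x / τ.card else 0)) = (σ.card : ℝ) * m / τ.card
    from hmn]
  rw [← hm]
  by_cases h1 : i ∈ σ
  · have h2 : i ∉ τ := fun h => (Finset.disjoint_left.1 hd h1) h
    simp only [h1, h2, if_true, if_false]
    field_simp
    ring
  · by_cases h2 : i ∈ τ
    · simp only [h1, h2, if_true, if_false]
      ring
    · simp only [h1, h2, if_false]
      ring

theorem sum_fl (σ τ : Finset (Fin N)) (hσ : σ.Nonempty) (hτ : τ.Nonempty) (x : Fin N → ℝ) :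
    ∑ i, fl σ τ hσ x i = ∑ i, x i := by
  have hcτ : (τ.card : ℝ) ≠ 0 := by exact_mod_cast (Finset.card_pos.2 hτ).ne'
  unfold fl
  rw [Finset.sum_add_distrib, Finset.sum_sub_distrib]
  rw [Finset.sum_ite_mem, Finset.sum_ite_mem]
  simp only [Finset.univ_inter, Finset.sum_const, nsmul_eq_mul]
  field_simp
  ring

/-- The combinatorial hypotheses of a (generalized) flip, for families of generating faces. -/
structure FlipData (F F' : Set (Finset (Fin N))) (σ τ : Finset (Fin N)) : Prop where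
  hσ : σ.Nonempty
  hτ : τ.Nonempty
  disj : Disjoint σ τ
  h1 : ∀ ρ ∈ F, ¬ σ ⊆ ρ → ∃ ρ' ∈ F', ρ ⊆ ρ'
  h2 : ∀ ρ ∈ F, σ ⊆ ρ → ∀ i ∈ σ, ∃ ρ' ∈ F', ρ.erase i ∪ τ ⊆ ρ'
  h3 : ∀ ρ ∈ F, ¬ τ ⊆ ρ
  h4 : ∀ ρ ∈ F', ¬ τ ⊆ ρ → ∃ ρ' ∈ F, ρ ⊆ ρ'
  h5 : ∀ ρ ∈ F', τ ⊆ ρ → ∀ j ∈ τ, ∃ ρ' ∈ F, ρ.erase j ∪ σ ⊆ ρ'
  h6 : ∀ ρ ∈ F', ¬ σ ⊆ ρ

theorem FlipData.symm {F F' : Set (Finset (Fin N))} {σ τ : Finset (Fin N)}
    (h : FlipData F F' σ τ) : FlipData F' F τ σ :=
  ⟨h.hτ, h.hσ, h.disj.symm, h.h4, h.h5, h.h6, h.h1, h.h2, h.h3⟩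

theorem FlipData.mem {F F' : Set (Finset (Fin N))} {σ τ : Finset (Fin N)}
    (h : FlipData F F' σ τ) (x : Fin N → ℝ) (hx : x ∈ RealOf F) :
    fl σ τ h.hσ x ∈ RealOf F' := by
  obtain ⟨hx0, hx1, ρ, hρ, hρx⟩ := hx
  have hm0 := mn_nonneg σ h.hσ x hx0
  refine ⟨?_, ?_, ?_⟩
  · intro i
    unfold fl
    have e1 : 0 ≤ x i - (if i ∈ σ then mn σ h.hσ x else 0) := by
      split_ifs with hi
      · linarith [mn_le σ h.hσ x hi]
      · linarith [hx0 i]
    have e2 : 0 ≤ (if i ∈ τ then (σ.card : ℝ) * mn σ h.hσ x / τ.card else 0) := by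
      split_ifs with hi
      · positivity
      · exact le_rfl
    linarith
  · rw [sum_fl σ τ h.hσ h.hτ, hx1]
  · by_cases hsub : σ ⊆ ρ
    · obtain ⟨i, hi, him⟩ := exists_mn σ h.hσ x
      obtain ⟨ρ', hρ', hsub'⟩ := h.h2 ρ hρ hsub i hi
      refine ⟨ρ', hρ', ?_⟩
      intro k hk
      have hk' : k ∉ ρ.erase i ∪ τ := fun hh => hk (hsub' hh)
      rw [Finset.mem_union, not_or, Finset.mem_erase, not_and_or] at hk'
      obtain ⟨hk1, hk2⟩ := hk'
      unfold fl
      rw [if_neg hk2]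
      by_cases hki : k = i
      · subst hki
        rw [if_pos hi, him]; ring
      · have hkρ : k ∉ ρ := by
          rcases hk1 with hk1 | hk1
          · exact absurd (not_not.1 hk1) hki
          · exact hk1
        have hkσ : k ∉ σ := fun hh => hkρ (hsub hh)
        rw [if_neg hkσ, hρx k hkρ]; ring
    · obtain ⟨ρ', hρ', hsub'⟩ := h.h1 ρ hρ hsub
      refine ⟨ρ', hρ', ?_⟩
      intro k hk
      have hkρ : k ∉ ρ := fun hh => hk (hsub' hh)
      obtain ⟨i, hi, hiρ⟩ := Finset.not_subset.1 hsub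
      have hm : mn σ h.hσ x = 0 := mn_eq_zero σ h.hσ x hx0 hi (hρx i hiρ)
      unfold fl
      rw [hm, hρx k hkρ]
      simp

theorem FlipData.exists_zero {F F' : Set (Finset (Fin N))} {σ τ : Finset (Fin N)}
    (h : FlipData F F' σ τ) (x : Fin N → ℝ) (hx : x ∈ RealOf F) : ∃ j ∈ τ, x j = 0 := by
  obtain ⟨_, _, ρ, hρ, hρx⟩ := hx
  obtain ⟨j, hj, hjρ⟩ := Finset.not_subset.1 (h.h3 ρ hρ)
  exact ⟨j, hj, hρx j hjρ⟩

/-- A generalized flip does not change the homeomorphism type of the realization. -/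
noncomputable def FlipData.homeo {F F' : Set (Finset (Fin N))} {σ τ : Finset (Fin N)}
    (h : FlipData F F' σ τ) : RealOf F ≃ₜ RealOf F' where
  toFun x := ⟨fl σ τ h.hσ x.1, h.mem x.1 x.2⟩
  invFun y := ⟨fl τ σ h.hτ y.1, h.symm.mem y.1 y.2⟩
  left_inv x := Subtype.ext (fl_fl σ τ h.hσ h.hτ h.disj x.1 x.2.1 (h.exists_zero x.1 x.2))
  right_inv y := Subtype.ext
    (fl_fl τ σ h.hτ h.hσ h.disj.symm y.1 y.2.1 (h.symm.exists_zero y.1 y.2))
  continuous_toFun :=
    Continuous.subtype_mk ((continuous_fl σ τ h.hσ).comp continuous_subtype_val) _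
  continuous_invFun :=
    Continuous.subtype_mk ((continuous_fl τ σ h.hτ).comp continuous_subtype_val) _

/-! ### The realization of a simplex of dimension 4 -/

/-- The solid simplex in coordinate space. -/
def Corner : Set (EuclideanSpace ℝ (Fin 4)) :=
  {y | (∀ i, 0 ≤ y i) ∧ y 0 + y 1 + y 2 + y 3 ≤ 1}

theorem corner_convex : Convex ℝ Corner := by
  intro x hx y hy a b ha hb hab
  refine ⟨fun i => ?_, ?_⟩
  · have := hx.1 i
    have := hy.1 i
    simp only [PiLp.add_apply, PiLp.smul_apply, smul_eq_mul]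
    positivity
  · have h1 := hx.2
    have h2 := hy.2
    simp only [PiLp.add_apply, PiLp.smul_apply, smul_eq_mul]
    nlinarith [mul_le_mul_of_nonneg_left h1 ha, mul_le_mul_of_nonneg_left h2 hb]

theorem continuous_coord (i : Fin 4) : Continuous (fun y : EuclideanSpace ℝ (Fin 4) => y i) := by
  fun_prop

theorem corner_closed : IsClosed Corner := by
  have h1 : IsClosed {y : EuclideanSpace ℝ (Fin 4) | ∀ i, 0 ≤ y i} := by
    simp only [Set.ofPred_forall]
    exact isClosed_iInter fun i => isClosed_le continuous_const (continuous_coord i)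
  have h2 : IsClosed {y : EuclideanSpace ℝ (Fin 4) | y 0 + y 1 + y 2 + y 3 ≤ 1} :=
    isClosed_le ((((continuous_coord 0).add (continuous_coord 1)).add
      (continuous_coord 2)).add (continuous_coord 3)) continuous_const
  exact h1.inter h2

theorem corner_bounded : Bornology.IsBounded Corner := by
  rw [isBounded_iff_forall_norm_le]
  refine ⟨2, ?_⟩
  intro y hy
  have h0 := hy.1 0
  have h1 := hy.1 1
  have h2 := hy.1 2
  have h3 := hy.1 3
  have hs := hy.2
  rw [EuclideanSpace.norm_eq]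
  apply Real.sqrt_le_iff.2
  refine ⟨by norm_num, ?_⟩
  rw [Fin.sum_univ_four]
  simp only [Real.norm_eq_abs, sq_abs]
  nlinarith [mul_nonneg h0 h1, mul_nonneg h0 h2, mul_nonneg h0 h3, mul_nonneg h1 h2,
    mul_nonneg h1 h3, mul_nonneg h2 h3]

theorem corner_interior : (interior Corner).Nonempty := by
  refine ⟨!₂[1/8, 1/8, 1/8, 1/8], ?_⟩
  have h1 : IsOpen {y : EuclideanSpace ℝ (Fin 4) | (∀ i, 0 < y i) ∧ y 0 + y 1 + y 2 + y 3 < 1} := by
    have h1 : IsOpen {y : EuclideanSpace ℝ (Fin 4) | ∀ i, 0 < y i} := by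
      simp only [Set.ofPred_forall]
      exact isOpen_iInter_of_finite fun i => isOpen_lt continuous_const (continuous_coord i)
    have h2 : IsOpen {y : EuclideanSpace ℝ (Fin 4) | y 0 + y 1 + y 2 + y 3 < 1} :=
      isOpen_lt ((((continuous_coord 0).add (continuous_coord 1)).add
        (continuous_coord 2)).add (continuous_coord 3)) continuous_const
    exact h1.inter h2
  have h2 : {y : EuclideanSpace ℝ (Fin 4) | (∀ i, 0 < y i) ∧ y 0 + y 1 + y 2 + y 3 < 1} ⊆
      Corner := fun y hy => ⟨fun i => (hy.1 i).le, hy.2.le⟩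
  refine interior_maximal h2 h1 ?_
  refine ⟨?_, ?_⟩
  · intro i
    fin_cases i <;> norm_num
  · change (1/8 : ℝ) + 1/8 + 1/8 + 1/8 < 1
    norm_num

theorem corner_homeo : Nonempty (Corner ≃ₜ Metric.closedBall (0 : EuclideanSpace ℝ (Fin 4)) 1) := by
  obtain ⟨h, _, h2, _⟩ := exists_homeomorph_image_interior_closure_frontier_eq_unitBall
    corner_convex corner_interior corner_bounded
  rw [corner_closed.closure_eq] at h2
  exact ⟨(h.image Corner).trans (Homeomorph.setCongr h2)⟩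

/-- Sum over a family supported on five indices. -/
theorem sum_five (a b c d f : Fin N) (hab : a ≠ b) (hac : a ≠ c) (had : a ≠ d) (haf : a ≠ f)
    (hbc : b ≠ c) (hbd : b ≠ d) (hbf : b ≠ f) (hcd : c ≠ d) (hcf : c ≠ f) (hdf : d ≠ f)
    (x : Fin N → ℝ) (hx : ∀ i, i ∉ ({a, b, c, d, f} : Finset (Fin N)) → x i = 0) :
    ∑ i, x i = x a + (x b + (x c + (x d + x f))) := by
  rw [← Finset.sum_subset (Finset.subset_univ ({a, b, c, d, f} : Finset (Fin N)))
    (fun i _ hi => hx i hi)]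
  rw [Finset.sum_insert, Finset.sum_insert, Finset.sum_insert, Finset.sum_insert,
    Finset.sum_singleton]
  · simp [hdf]
  · simp [hcd, hcf]
  · simp [hbc, hbd, hbf]
  · simp [hab, hac, had, haf]

theorem simplex_homeo (a b c d f : Fin N) (hab : a ≠ b) (hac : a ≠ c) (had : a ≠ d) (haf : a ≠ f)
    (hbc : b ≠ c) (hbd : b ≠ d) (hbf : b ≠ f) (hcd : c ≠ d) (hcf : c ≠ f) (hdf : d ≠ f) :
    Nonempty (RealOf ({{a, b, c, d, f}} : Set (Finset (Fin N))) ≃ₜ Corner) := by
  have hsup : ∀ x ∈ RealOf ({{a, b, c, d, f}} : Set (Finset (Fin N))),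
      ∀ i, i ∉ ({a, b, c, d, f} : Finset (Fin N)) → x i = 0 := by
    rintro x ⟨_, _, σ, hσ, hx⟩
    rw [Set.mem_singleton_iff] at hσ
    subst hσ
    exact hx
  let g : EuclideanSpace ℝ (Fin 4) → (Fin N → ℝ) := fun y i =>
    if i = a then y 0 else if i = b then y 1 else if i = c then y 2 else if i = d then y 3
    else if i = f then 1 - (y 0 + y 1 + y 2 + y 3) else 0
  have ga : ∀ y, g y a = y 0 := fun y => by simp [g]
  have gb : ∀ y, g y b = y 1 := fun y => by simp [g, hab.symm]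
  have gc : ∀ y, g y c = y 2 := fun y => by simp [g, hac.symm, hbc.symm]
  have gd : ∀ y, g y d = y 3 := fun y => by simp [g, had.symm, hbd.symm, hcd.symm]
  have gf : ∀ y, g y f = 1 - (y 0 + y 1 + y 2 + y 3) := fun y => by
    simp [g, haf.symm, hbf.symm, hcf.symm, hdf.symm]
  have gz : ∀ y i, i ∉ ({a, b, c, d, f} : Finset (Fin N)) → g y i = 0 := by
    intro y i hi
    simp only [Finset.mem_insert, Finset.mem_singleton, not_or] at hi
    obtain ⟨h1, h2, h3, h4, h5⟩ := hi
    simp [g, h1, h2, h3, h4, h5]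
  have gcont : Continuous g := by
    refine continuous_pi fun i => ?_
    simp only [g]
    split_ifs <;> fun_prop
  have gmem : ∀ y ∈ Corner, g y ∈ RealOf ({{a, b, c, d, f}} : Set (Finset (Fin N))) := by
    intro y hy
    refine ⟨?_, ?_, {a, b, c, d, f}, rfl, gz y⟩
    · intro i
      simp only [g]
      have h0 := hy.1 0
      have h1 := hy.1 1
      have h2 := hy.1 2
      have h3 := hy.1 3
      have h4 := hy.2
      split_ifs <;> first | assumption | linarith | exact le_rfl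
    · rw [sum_five a b c d f hab hac had haf hbc hbd hbf hcd hcf hdf _ (gz y), ga, gb, gc, gd, gf]
      ring
  refine ⟨{
    toFun := fun x => ⟨!₂[x.1 a, x.1 b, x.1 c, x.1 d], ?_⟩
    invFun := fun y => ⟨g y.1, gmem y.1 y.2⟩
    left_inv := ?_
    right_inv := ?_
    continuous_toFun := ?_
    continuous_invFun := ?_ }⟩
  · obtain ⟨hx0, hx1, _⟩ := x.2
    rw [sum_five a b c d f hab hac had haf hbc hbd hbf hcd hcf hdf _ (hsup x.1 x.2)] at hx1
    refine ⟨?_, ?_⟩
    · intro i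
      fin_cases i
      · exact hx0 a
      · exact hx0 b
      · exact hx0 c
      · exact hx0 d
    · change x.1 a + x.1 b + x.1 c + x.1 d ≤ 1
      linarith [hx0 f]
  · intro x
    apply Subtype.ext
    funext i
    have hx1 := x.2.2.1
    rw [sum_five a b c d f hab hac had haf hbc hbd hbf hcd hcf hdf _ (hsup x.1 x.2)] at hx1
    change g !₂[x.1 a, x.1 b, x.1 c, x.1 d] i = x.1 i
    by_cases h1 : i = a
    · subst h1; rw [ga]; rfl
    by_cases h2 : i = b
    · subst h2; rw [gb]; rfl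
    by_cases h3 : i = c
    · subst h3; rw [gc]; rfl
    by_cases h4 : i = d
    · subst h4; rw [gd]; rfl
    by_cases h5 : i = f
    · subst h5; rw [gf]
      change 1 - (x.1 a + x.1 b + x.1 c + x.1 d) = x.1 i
      linarith
    · rw [gz _ i (by simp [h1, h2, h3, h4, h5]), hsup x.1 x.2 i (by simp [h1, h2, h3, h4, h5])]
  · intro y
    apply Subtype.ext
    change (!₂[g y.1 a, g y.1 b, g y.1 c, g y.1 d] : EuclideanSpace ℝ (Fin 4)) = y.1
    rw [ga, gb, gc, gd]
    ext i
    fin_cases i <;> rfl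
  · apply Continuous.subtype_mk
    have h : Continuous fun x : RealOf ({{a, b, c, d, f}} : Set (Finset (Fin N))) =>
        (![x.1 a, x.1 b, x.1 c, x.1 d] : Fin 4 → ℝ) := by
      refine continuous_pi fun i => ?_
      fin_cases i
      · exact (continuous_apply a).comp continuous_subtype_val
      · exact (continuous_apply b).comp continuous_subtype_val
      · exact (continuous_apply c).comp continuous_subtype_val
      · exact (continuous_apply d).comp continuous_subtype_val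
    exact (PiLp.continuous_toLp 2 (fun _ : Fin 4 => ℝ)).comp h
  · exact Continuous.subtype_mk (gcont.comp continuous_subtype_val) _

end Pool.Agent.Hhelper45
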