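import Mathlib
import Pool.Agent.Hhelper45.BallFlip
import Pool.Agent.Hhelper45.BallData

set_option autoImplicit false

/-!
# Kernel-checked combinatorics of the 4-ball

Vertex sets are coded by natural numbers below `2 ^ 13 = 8192`.
-/

namespace Pool.Agent.Hhelper45

open Finset

/-- The vertex set. -/
abbrev V : Type := Fin 13

/-- Decoding of a bit mask. -/
def dec (m : ℕ) : Finset V := Finset.univ.filter (fun i => m.testBit i.val = true)

theorem mem_dec {m : ℕ} {i : V} : i ∈ dec m ↔ m.testBit i.val = true := by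
  simp [dec]

theorem testBit_big {a : ℕ} (ha : a < 8192) {i : ℕ} (hi : 13 ≤ i) : a.testBit i = false :=
  Nat.testBit_lt_two_pow (lt_of_lt_of_le ha
    (by calc (8192 : ℕ) = 2 ^ 13 := by norm_num
      _ ≤ 2 ^ i := Nat.pow_le_pow_right (by norm_num) hi))

theorem dec_inj {a b : ℕ} (ha : a < 8192) (hb : b < 8192) (h : dec a = dec b) : a = b := by
  apply Nat.eq_of_testBit_eq
  intro i
  by_cases hi : i < 13
  · have h1 : (⟨i, hi⟩ : V) ∈ dec a ↔ (⟨i, hi⟩ : V) ∈ dec b := by rw [h]
    rw [mem_dec, mem_dec] at h1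
    simp only at h1
    cases ha' : a.testBit i <;> cases hb' : b.testBit i <;> simp_all
  · push Not at hi
    rw [testBit_big ha hi, testBit_big hb hi]

/-- Boolean subset test for masks. -/
def sub (a b : ℕ) : Bool := (a &&& b) == a

theorem sub_imp {a b : ℕ} (h : sub a b = true) : dec a ⊆ dec b := by
  intro i hi
  rw [mem_dec] at *
  have h' : a &&& b = a := by simpa [sub] using h
  rw [← h', Nat.testBit_and] at hi
  simp only [Bool.and_eq_true] at hi
  exact hi.2

theorem sub_of_subset {a b : ℕ} (ha : a < 8192) (h : dec a ⊆ dec b) : sub a b = true := by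
  have : a &&& b = a := by
    apply Nat.eq_of_testBit_eq
    intro i
    rw [Nat.testBit_and]
    by_cases hi : i < 13
    · cases ha' : a.testBit i
      · simp
      · have h1 : (⟨i, hi⟩ : V) ∈ dec a := by rw [mem_dec]; exact ha'
        have h2 := h h1
        rw [mem_dec] at h2
        simp only at h2
        simp [h2]
    · push Not at hi
      rw [testBit_big ha hi]; simp
  simp [sub, this]

theorem sub_iff {a b : ℕ} (ha : a < 8192) : sub a b = true ↔ dec a ⊆ dec b :=
  ⟨sub_imp, sub_of_subset ha⟩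

/-- The family of decoded masks. -/
def fam (l : List ℕ) : Finset (Finset V) := (l.map dec).toFinset

theorem mem_fam {l : List ℕ} {σ : Finset V} : σ ∈ fam l ↔ ∃ a ∈ l, dec a = σ := by
  simp [fam]

theorem dec_mem_fam {l : List ℕ} {a : ℕ} (ha : a < 8192) (hl : ∀ x ∈ l, x < 8192) :
    dec a ∈ fam l ↔ a ∈ l := by
  rw [mem_fam]
  constructor
  · rintro ⟨b, hb, h⟩
    rw [← dec_inj (hl b hb) ha h]; exact hb
  · intro h
    exact ⟨a, h, rfl⟩

/-- The bits of a mask. -/
def bitsOf (m : ℕ) : List ℕ := (List.range 13).filter (fun i => m.testBit i)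

theorem mem_bitsOf {m : ℕ} {i : V} (h : i ∈ dec m) : i.val ∈ bitsOf m := by
  rw [mem_dec] at h
  simp [bitsOf, h, i.isLt]

/-! ### Flips -/

/-- One half of the conditions of a flip. -/
def halfFlip (F F' : List ℕ) (s t : ℕ) : Bool :=
  F.all fun r => (!sub t r) &&
    (if sub s r then (bitsOf s).all fun i => F'.any fun r' => sub ((r ^^^ (2 ^ i)) ||| t) r'
    else F'.any fun r' => sub r r')

/-- The conditions of a flip. -/
def checkFlip (F F' : List ℕ) (s t : ℕ) : Bool :=
  s != 0 && t != 0 && ((s &&& t) == 0) && decide (s < 8192) && decide (t < 8192) &&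
    halfFlip F F' s t && halfFlip F' F t s

/-- The set of decoded masks. -/
def famS (l : List ℕ) : Set (Finset V) := {σ | ∃ a ∈ l, dec a = σ}

theorem dec_nonempty {s : ℕ} (hs : s < 8192) (h : s ≠ 0) : (dec s).Nonempty := by
  rw [Finset.nonempty_iff_ne_empty]
  intro hcon
  apply h
  apply dec_inj hs (by norm_num)
  rw [hcon]
  ext i
  simp [mem_dec]

theorem erase_union_sub {r s t i : ℕ} (hi : i ∈ bitsOf s) {r' : ℕ}
    (h : sub ((r ^^^ (2 ^ i)) ||| t) r' = true) (k : V) (hk : k.val = i) (hkr : k ∈ dec r) :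
    (dec r).erase k ∪ dec t ⊆ dec r' := by
  refine subset_trans ?_ (sub_imp h)
  intro x hx
  rw [Finset.mem_union, Finset.mem_erase] at hx
  rw [mem_dec, Nat.testBit_or, Nat.testBit_xor]
  rcases hx with ⟨hx1, hx2⟩ | hx
  · rw [mem_dec] at hx2
    have : (2 ^ i).testBit x.val = false := by
      rw [Nat.testBit_two_pow]
      simp only [decide_eq_false_iff_not]
      intro hcon
      exact hx1 (Fin.ext (by rw [← hcon, hk]))
    rw [hx2, this]; simp
  · rw [mem_dec] at hx
    rw [hx]; simp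

theorem halfFlip_spec {F F' : List ℕ} {s t : ℕ} (hF : ∀ x ∈ F, x < 8192) (hs : s < 8192)
    (ht : t < 8192)
    (h : halfFlip F F' s t = true) :
    (∀ ρ ∈ famS F, ¬ dec s ⊆ ρ → ∃ ρ' ∈ famS F', ρ ⊆ ρ') ∧
    (∀ ρ ∈ famS F, dec s ⊆ ρ → ∀ i ∈ dec s, ∃ ρ' ∈ famS F', ρ.erase i ∪ dec t ⊆ ρ') ∧
    (∀ ρ ∈ famS F, ¬ dec t ⊆ ρ) := by
  rw [halfFlip, List.all_eq_true] at h
  refine ⟨?_, ?_, ?_⟩
  · rintro ρ ⟨r, hr, rfl⟩ hsub
    have h1 := h r hr
    rw [Bool.and_eq_true] at h1
    have h2 := h1.2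
    rw [if_neg (by rw [sub_iff hs]; exact hsub), List.any_eq_true] at h2
    obtain ⟨r', hr', h3⟩ := h2
    exact ⟨dec r', ⟨r', hr', rfl⟩, sub_imp h3⟩
  · rintro ρ ⟨r, hr, rfl⟩ hsub i hi
    have h1 := h r hr
    rw [Bool.and_eq_true] at h1
    have h2 := h1.2
    rw [if_pos (by rw [sub_iff hs]; exact hsub), List.all_eq_true] at h2
    have h3 := h2 i.val (mem_bitsOf hi)
    rw [List.any_eq_true] at h3
    obtain ⟨r', hr', h4⟩ := h3
    exact ⟨dec r', ⟨r', hr', rfl⟩, erase_union_sub (mem_bitsOf hi) h4 i rfl (hsub hi)⟩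
  · rintro ρ ⟨r, hr, rfl⟩ hsub
    have h1 := h r hr
    rw [Bool.and_eq_true] at h1
    have h2 := h1.1
    rw [sub_of_subset ht hsub] at h2
    simp at h2

theorem checkFlip_spec {F F' : List ℕ} {s t : ℕ} (hF : ∀ x ∈ F, x < 8192)
    (hF' : ∀ x ∈ F', x < 8192) (h : checkFlip F F' s t = true) :
    FlipData (famS F) (famS F') (dec s) (dec t) := by
  simp only [checkFlip, Bool.and_eq_true, bne_iff_ne, ne_eq, beq_iff_eq, decide_eq_true_eq] at h
  obtain ⟨⟨⟨⟨⟨⟨h1, h2⟩, h3⟩, h4⟩, h5⟩, h6⟩, h7⟩ := h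
  obtain ⟨a1, a2, a3⟩ := halfFlip_spec hF h4 h5 h6
  obtain ⟨b1, b2, b3⟩ := halfFlip_spec hF' h5 h4 h7
  refine ⟨dec_nonempty h4 h1, dec_nonempty h5 h2, ?_, a1, a2, a3, b1, b2, b3⟩
  rw [Finset.disjoint_left]
  intro i hi hi'
  rw [mem_dec] at hi hi'
  have : (s &&& t).testBit i.val = true := by rw [Nat.testBit_and, hi, hi']; rfl
  rw [h3] at this
  simp at this

/-- Checking a sequence of flips. -/
def checkFlips : List ℕ → List (ℕ × ℕ × List ℕ) → Bool
  | _, [] => true
  | F, (s, t, F') :: rest => checkFlip F F' s t && checkFlips F' rest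

/-- The last complex of a sequence of flips. -/
def lastOf : List ℕ → List (ℕ × ℕ × List ℕ) → List ℕ
  | F, [] => F
  | _, (_, _, F') :: rest => lastOf F' rest

theorem flips_homeo : ∀ (l : List (ℕ × ℕ × List ℕ)) (F : List ℕ), (∀ x ∈ F, x < 8192) →
    (∀ p ∈ l, ∀ x ∈ p.2.2, x < 8192) → checkFlips F l = true →
    Nonempty (RealOf (famS F) ≃ₜ RealOf (famS (lastOf F l)))
  | [], F, _, _, _ => ⟨Homeomorph.refl _⟩
  | (s, t, F') :: rest, F, hF, hl, h => by
    rw [checkFlips, Bool.and_eq_true] at h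
    have hF' : ∀ x ∈ F', x < 8192 := hl (s, t, F') (by simp)
    have e1 := (checkFlip_spec hF hF' h.1).homeo
    obtain ⟨e2⟩ := flips_homeo rest F' hF' (fun p hp => hl p (List.mem_cons_of_mem _ hp)) h.2
    exact ⟨e1.trans e2⟩

theorem facets_lt : ∀ x ∈ facets, x < 8192 := by decide +kernel

theorem flips_lt : ∀ p ∈ flips, ∀ x ∈ p.2.2, x < 8192 := by decide +kernel

theorem flips_check : checkFlips facets flips = true := by decide +kernel

theorem flips_last : lastOf facets flips = [3240] := by decide +kernel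

theorem facets_homeo : Nonempty (RealOf (famS facets) ≃ₜ
    Metric.closedBall (0 : EuclideanSpace ℝ (Fin 4)) 1) := by
  obtain ⟨e1⟩ := flips_homeo flips facets facets_lt flips_lt flips_check
  rw [flips_last] at e1
  have h1 : famS [3240] = ({({3, 5, 7, 10, 11} : Finset V)} : Set (Finset V)) := by
    have : dec 3240 = ({3, 5, 7, 10, 11} : Finset V) := by decide +kernel
    ext σ
    simp only [famS, List.mem_singleton, exists_eq_left, this, Set.mem_singleton_iff]
    constructor
    · intro h; exact h.symm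
    · intro h; exact h.symm
  rw [h1] at e1
  obtain ⟨e2⟩ := simplex_homeo (N := 13) 3 5 7 10 11 (by decide) (by decide) (by decide)
    (by decide) (by decide) (by decide) (by decide) (by decide) (by decide) (by decide)
  obtain ⟨e3⟩ := corner_homeo
  exact ⟨(e1.trans e2).trans e3⟩

end Pool.Agent.Hhelper45
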