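import Mathlib
import Pool.Agent.Hhelper45.BallCombi

set_option autoImplicit false

/-!
# Collapsibility and evasiveness of the 4-ball
-/

namespace Pool.Agent.Hhelper45

open Finset

/-! ### Kernel-friendly Boolean functions -/

/-- Membership test. -/
def memB (a : ℕ) (l : List ℕ) : Bool := List.rec false (fun x _ ih => or (Nat.beq a x) ih) l

/-- Subset test. -/
def subB (a b : ℕ) : Bool := Nat.beq (Nat.land a b) a

/-- All elements satisfy `p`. -/
def allB {α : Type} (p : α → Bool) (l : List α) : Bool :=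
  List.rec true (fun x _ ih => and (p x) ih) l

/-- Some element satisfies `p`. -/
def anyB {α : Type} (p : α → Bool) (l : List α) : Bool :=
  List.rec false (fun x _ ih => or (p x) ih) l

/-- The number of elements of the list that are subsets of `U`. -/
def cntB (U : ℕ) (l : List ℕ) : ℕ :=
  List.rec 0 (fun x _ ih => cond (subB x U) (Nat.succ ih) ih) l

theorem memB_iff (a : ℕ) (l : List ℕ) : memB a l = true ↔ a ∈ l := by
  induction l with
  | nil => simp [memB]
  | cons x t ih =>
    change (Nat.beq a x || memB a t) = true ↔ _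
    rw [Bool.or_eq_true, ih, List.mem_cons, Nat.beq_eq]

theorem allB_iff {α : Type} (p : α → Bool) (l : List α) :
    allB p l = true ↔ ∀ x ∈ l, p x = true := by
  induction l with
  | nil => simp [allB]
  | cons x t ih =>
    change (p x && allB p t) = true ↔ _
    rw [Bool.and_eq_true, ih, List.forall_mem_cons]

theorem anyB_iff {α : Type} (p : α → Bool) (l : List α) :
    anyB p l = true ↔ ∃ x ∈ l, p x = true := by
  induction l with
  | nil => simp [anyB]
  | cons x t ih =>
    change (p x || anyB p t) = true ↔ _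
    rw [Bool.or_eq_true, ih]
    simp

theorem subB_eq (a b : ℕ) : subB a b = sub a b := by
  have h : subB a b = true ↔ sub a b = true := by
    rw [subB, sub, Nat.beq_eq, beq_iff_eq]
    exact Iff.rfl
  cases h1 : subB a b <;> cases h2 : sub a b <;> simp_all

theorem cntB_eq (U : ℕ) (l : List ℕ) : cntB U l = (l.filter (fun a => sub a U)).length := by
  induction l with
  | nil => rfl
  | cons x t ih =>
    change cond (subB x U) (Nat.succ (cntB U t)) (cntB U t) = _
    rw [subB_eq, List.filter_cons, ih]
    cases sub x U <;> simp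

/-- The indices of the vertices. -/
def vts : List ℕ := [0, 1, 2, 3, 4, 5, 6, 7, 8, 9, 10, 11, 12]

theorem mem_vts (i : V) : i.val ∈ vts := by
  revert i; decide

/-- Strictly increasing lists. -/
def incB (l : List ℕ) : ℕ → Bool :=
  List.rec (fun _ => true) (fun x _ ih a => and (Nat.blt a x) (ih x)) l

theorem incB_spec (l : List ℕ) : ∀ a, incB l a = true → (∀ x ∈ l, a < x) ∧ l.Nodup := by
  induction l with
  | nil => intro a _; simp
  | cons x t ih =>
    intro a h
    change (Nat.blt a x && incB t x) = true at h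
    rw [Bool.and_eq_true, Nat.blt_eq] at h
    obtain ⟨h1, h2⟩ := h
    obtain ⟨h3, h4⟩ := ih x h2
    refine ⟨?_, ?_⟩
    · intro y hy
      rcases List.mem_cons.1 hy with rfl | hy
      · exact h1
      · exact lt_trans h1 (h3 y hy)
    · rw [List.nodup_cons]
      exact ⟨fun hx => lt_irrefl _ (h3 x hx), h4⟩

/-! ### The complex -/

/-- All faces of the complex. -/
def faces : List ℕ := facesE ++ facesO

/-- The complex. -/
def K : Finset (Finset V) := fam faces

theorem faces_lt_check : allB (fun a => Nat.blt a 8192) faces = true := by decide +kernel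

theorem faces_lt : ∀ x ∈ faces, x < 8192 := by
  have h := faces_lt_check
  rw [allB_iff] at h
  intro x hx
  have h1 := h x hx
  rw [Nat.blt_eq] at h1
  exact h1

theorem facesE_inc : and (memB 0 facesE) (incB facesE.tail 0) = true := by decide +kernel
theorem facesO_inc : incB facesO 0 = true := by decide +kernel

theorem facesE_even : ∀ a ∈ facesE, (dec a).card % 2 = 0 := by decide +kernel
theorem facesO_odd : ∀ a ∈ facesO, (dec a).card % 2 = 1 := by decide +kernel

theorem facesE_nodup : facesE.Nodup := by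
  have h := facesE_inc
  rw [Bool.and_eq_true] at h
  obtain ⟨h1, h2⟩ := incB_spec _ _ h.2
  have h3 : facesE = 0 :: facesE.tail := by rfl
  rw [h3, List.nodup_cons]
  exact ⟨fun h0 => lt_irrefl _ (h1 0 h0), h2⟩

theorem facesO_nodup : facesO.Nodup := (incB_spec _ _ facesO_inc).2

theorem faces_nodup : faces.Nodup := by
  rw [faces, List.nodup_append]
  refine ⟨facesE_nodup, facesO_nodup, ?_⟩
  intro a ha b hb hab
  have h1 := facesE_even a ha
  have h2 := facesO_odd b hb
  rw [← hab] at h2
  omega

theorem faces_closed_bits : allB (fun a => allB (fun i => or (not (Nat.testBit a i))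
    (memB (Nat.xor a (Nat.pow 2 i)) faces)) vts) faces = true := by decide +kernel

theorem mem_K {a : ℕ} (ha : a < 8192) : dec a ∈ K ↔ a ∈ faces := dec_mem_fam ha faces_lt

theorem dec_erase {a : ℕ} {i : V} (hi : i ∈ dec a) :
    dec (a ^^^ (2 ^ i.val)) = (dec a).erase i := by
  ext x
  rw [Finset.mem_erase, mem_dec, mem_dec, Nat.testBit_xor, Nat.testBit_two_pow]
  by_cases hx : x = i
  · subst hx
    rw [mem_dec] at hi
    simp [hi]
  · have : ¬ (i.val = x.val) := fun h => hx (Fin.ext h.symm)
    simp [hx, this]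

theorem dec_insert {a : ℕ} {i : V} : dec (a ||| (2 ^ i.val)) = insert i (dec a) := by
  ext x
  rw [Finset.mem_insert, mem_dec, mem_dec, Nat.testBit_or, Nat.testBit_two_pow]
  by_cases hx : x = i
  · subst hx; simp
  · have : ¬ (i.val = x.val) := fun h => hx (Fin.ext h.symm)
    simp [hx, this]

theorem K_erase_mem : ∀ σ ∈ K, ∀ i ∈ σ, σ.erase i ∈ K := by
  intro σ hσ i hi
  rw [K, mem_fam] at hσ
  obtain ⟨a, ha, rfl⟩ := hσ
  have h := faces_closed_bits
  rw [allB_iff] at h
  have h1 := h a ha
  rw [allB_iff] at h1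
  have h2 := h1 i.val (mem_vts i)
  rw [Bool.or_eq_true, memB_iff] at h2
  have h3 : a ^^^ (2 ^ i.val) ∈ faces := by
    rcases h2 with h2 | h2
    · rw [mem_dec] at hi
      have : Nat.testBit a i.val = false := by simpa using h2
      rw [this] at hi
      exact absurd hi (by simp)
    · exact h2
  rw [← dec_erase hi, K, mem_fam]
  exact ⟨_, h3, rfl⟩

/-- A family closed under passing to subsets. -/
def Closed (L : Finset (Finset V)) : Prop := ∀ σ ∈ L, ∀ τ : Finset V, τ ⊆ σ → τ ∈ L

theorem closed_of_erase (L : Finset (Finset V)) (h : ∀ σ ∈ L, ∀ i ∈ σ, σ.erase i ∈ L) :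
    Closed L := by
  intro σ
  induction σ using Finset.strongInduction with
  | H σ ih =>
    intro hσ τ hτ
    by_cases hne : τ = σ
    · rw [hne]; exact hσ
    · obtain ⟨i, hi, hi'⟩ : ∃ i ∈ σ, i ∉ τ := by
        by_contra hcon
        push Not at hcon
        exact hne (Finset.Subset.antisymm hτ hcon)
      refine ih (σ.erase i) (Finset.erase_ssubset hi) (h σ hσ i hi) τ ?_
      intro x hx
      rw [Finset.mem_erase]
      exact ⟨fun hxi => hi' (hxi ▸ hx), hτ hx⟩

theorem K_closed : Closed K := closed_of_erase K K_erase_mem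

theorem zero_mem_faces : memB 0 faces = true := by decide +kernel

theorem empty_mem_K : (∅ : Finset V) ∈ K := by
  have h : (∅ : Finset V) = dec 0 := by
    ext i; simp [mem_dec]
  rw [h, mem_K (by norm_num)]
  exact (memB_iff _ _).1 zero_mem_faces

/-! ### The realization -/

theorem facets_sub_faces : allB (fun a => memB a faces) facets = true := by decide +kernel

theorem faces_sub_facets : allB (fun a => anyB (fun f => subB a f) facets) faces = true := by
  decide +kernel

theorem real_K : RealOf (K : Set (Finset V)) = RealOf (famS facets) := by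
  ext x
  constructor
  · rintro ⟨h0, h1, σ, hσ, hx⟩
    refine ⟨h0, h1, ?_⟩
    rw [Finset.mem_coe, K, mem_fam] at hσ
    obtain ⟨a, ha, rfl⟩ := hσ
    have h := faces_sub_facets
    rw [allB_iff] at h
    have h2 := h a ha
    rw [anyB_iff] at h2
    obtain ⟨f, hf, h3⟩ := h2
    rw [subB_eq] at h3
    refine ⟨dec f, ⟨f, hf, rfl⟩, fun i hi => hx i (fun hi' => hi (sub_imp h3 hi'))⟩
  · rintro ⟨h0, h1, σ, ⟨f, hf, rfl⟩, hx⟩
    refine ⟨h0, h1, dec f, ?_, hx⟩
    have h := facets_sub_faces
    rw [allB_iff] at h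
    have h2 := h f hf
    rw [memB_iff] at h2
    rw [Finset.mem_coe, K, mem_fam]
    exact ⟨f, h2, rfl⟩

theorem K_homeo : Nonempty (↥{x : V → ℝ | (∀ i, 0 ≤ x i) ∧ ∑ i, x i = 1 ∧
      ∃ σ ∈ K, ∀ i, i ∉ σ → x i = 0} ≃ₜ
    ↥(Metric.closedBall (0 : EuclideanSpace ℝ (Fin 4)) 1)) := by
  obtain ⟨e⟩ := facets_homeo
  have h : {x : V → ℝ | (∀ i, 0 ≤ x i) ∧ ∑ i, x i = 1 ∧
      ∃ σ ∈ K, ∀ i, i ∉ σ → x i = 0} = RealOf (famS facets) := by
    rw [← real_K]
    rfl
  exact ⟨(Homeomorph.setCongr h).trans e⟩

/-! ### Collapsibility -/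

/-- The collapsibility predicate of the frozen statement. -/
def Coll (L₀ : Finset (Finset V)) : Prop :=
  ∀ S : Finset (Finset V) → Prop,
    (∀ v : V, S {∅, {v}}) →
    (∀ L : Finset (Finset V), ∀ σ ∈ L, ∀ τ ∈ L, σ ⊂ τ →
      τ.card = σ.card + 1 →
      (∀ ρ ∈ L, σ ⊆ ρ → ρ = σ ∨ ρ = τ) →
      S ((L.erase σ).erase τ) → S L) →
    S L₀

theorem Coll.step (L : Finset (Finset V)) (σ τ : Finset V) (hσ : σ ∈ L) (hτ : τ ∈ L)
    (h1 : σ ⊂ τ) (h2 : τ.card = σ.card + 1) (h3 : ∀ ρ ∈ L, σ ⊆ ρ → ρ = σ ∨ ρ = τ)
    (h : Coll ((L.erase σ).erase τ)) : Coll L := by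
  intro S hb hs
  exact hs L σ hσ τ hτ h1 h2 h3 (h S hb hs)

/-- The faces listed in the order of a collapsing sequence. -/
def orderFaces (ps : List (ℕ × ℕ × ℕ)) : List ℕ :=
  List.rec collapseEnd (fun p _ ih => p.1 :: p.2.1 :: ih) ps

/-- Checks a collapsing sequence. -/
def checkColl (ps : List (ℕ × ℕ × ℕ)) : Bool :=
  List.rec true (fun p rest ih =>
    and (and (and (Nat.blt p.2.2 13) (not (Nat.testBit p.1 p.2.2)))
      (and (Nat.beq p.2.1 (Nat.lor p.1 (Nat.pow 2 p.2.2))) (Nat.blt p.1 8192)))
      (and (and (allB (fun c => not (subB p.1 c)) collapseEnd)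
        (allB (fun q => and (not (subB p.1 q.1)) (not (subB p.1 q.2.1))) rest)) ih)) ps

theorem mem_orderFaces (ps : List (ℕ × ℕ × ℕ)) (c : ℕ) :
    c ∈ orderFaces ps ↔ c ∈ collapseEnd ∨ ∃ q ∈ ps, c = q.1 ∨ c = q.2.1 := by
  induction ps with
  | nil => simp [orderFaces]
  | cons p t ih =>
    change c ∈ p.1 :: p.2.1 :: orderFaces t ↔ _
    rw [List.mem_cons, List.mem_cons, ih]
    simp only [List.mem_cons, exists_eq_or_imp]
    constructor
    · rintro (h | h | h | h)
      · exact Or.inr (Or.inl (Or.inl h))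
      · exact Or.inr (Or.inl (Or.inr h))
      · exact Or.inl h
      · exact Or.inr (Or.inr h)
    · rintro (h | (h | h) | h)
      · exact Or.inr (Or.inr (Or.inl h))
      · exact Or.inl h
      · exact Or.inr (Or.inl h)
      · exact Or.inr (Or.inr (Or.inr h))

theorem checkColl_spec (he : Coll (fam collapseEnd)) :
    ∀ (ps : List (ℕ × ℕ × ℕ)), checkColl ps = true → Coll (fam (orderFaces ps)) := by
  intro ps
  induction ps with
  | nil => intro _; exact he
  | cons p rest ih =>
    intro h
    change (((Nat.blt p.2.2 13 && !(Nat.testBit p.1 p.2.2)) &&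
      (Nat.beq p.2.1 (Nat.lor p.1 (Nat.pow 2 p.2.2)) && Nat.blt p.1 8192)) &&
      ((allB (fun c => not (subB p.1 c)) collapseEnd &&
        allB (fun q => and (not (subB p.1 q.1)) (not (subB p.1 q.2.1))) rest) &&
        checkColl rest)) = true at h
    simp only [Bool.and_eq_true, Nat.blt_eq, Nat.beq_eq, allB_iff] at h
    obtain ⟨⟨⟨h1, h2⟩, h3, h4⟩, ⟨h5, h6⟩, h7⟩ := h
    have h2' : Nat.testBit p.1 p.2.2 = false := by simpa using h2
    have hb' : dec p.2.1 = insert (⟨p.2.2, h1⟩ : V) (dec p.1) := by
      rw [h3]; exact dec_insert (a := p.1) (i := ⟨p.2.2, h1⟩)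
    have hnot : (⟨p.2.2, h1⟩ : V) ∉ dec p.1 := by
      rw [mem_dec]; simp [h2']
    have hrest : ∀ c ∈ orderFaces rest, ¬ dec p.1 ⊆ dec c := by
      intro c hc hsub
      have h8 := sub_of_subset h4 hsub
      rw [mem_orderFaces] at hc
      rcases hc with hc | ⟨q, hq, hc⟩
      · have := h5 c hc
        rw [subB_eq, h8] at this
        simp at this
      · have := h6 q hq
        rw [subB_eq, subB_eq] at this
        simp only [Bool.not_eq_true'] at this
        rcases hc with hc | hc
        · rw [hc, this.1] at h8; simp at h8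
        · rw [hc, this.2] at h8; simp at h8
    have hsub : dec p.1 ⊂ dec p.2.1 := by rw [hb']; exact Finset.ssubset_insert hnot
    have hfam : fam (orderFaces (p :: rest)) =
        insert (dec p.1) (insert (dec p.2.1) (fam (orderFaces rest))) := by
      ext σ
      rw [Finset.mem_insert, Finset.mem_insert, mem_fam, mem_fam]
      change (∃ a ∈ p.1 :: p.2.1 :: orderFaces rest, dec a = σ) ↔ _
      simp only [List.mem_cons, exists_eq_or_imp]
      constructor
      · rintro (h | h | h)
        · exact Or.inl h.symm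
        · exact Or.inr (Or.inl h.symm)
        · exact Or.inr (Or.inr h)
      · rintro (h | h | h)
        · exact Or.inl h.symm
        · exact Or.inr (Or.inl h.symm)
        · exact Or.inr (Or.inr h)
    have hn1 : dec p.1 ∉ fam (orderFaces rest) := by
      rw [mem_fam]
      rintro ⟨c, hc, h⟩
      exact hrest c hc (by rw [h])
    have hn2 : dec p.2.1 ∉ fam (orderFaces rest) := by
      rw [mem_fam]
      rintro ⟨c, hc, h⟩
      exact hrest c hc (by rw [h]; exact hsub.subset)
    have hne : dec p.1 ≠ dec p.2.1 := hsub.ne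
    apply Coll.step _ (dec p.1) (dec p.2.1)
    · rw [hfam]; simp
    · rw [hfam]; simp
    · exact hsub
    · rw [hb', Finset.card_insert_of_notMem hnot]
    · intro ρ hρ hρs
      rw [hfam, Finset.mem_insert, Finset.mem_insert] at hρ
      rcases hρ with hρ | hρ | hρ
      · exact Or.inl hρ
      · exact Or.inr hρ
      · exfalso
        rw [mem_fam] at hρ
        obtain ⟨c, hc, rfl⟩ := hρ
        exact hrest c hc hρs
    · have : ((fam (orderFaces (p :: rest))).erase (dec p.1)).erase (dec p.2.1) =
          fam (orderFaces rest) := by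
        rw [hfam, Finset.erase_insert, Finset.erase_insert hn2]
        rw [Finset.mem_insert, not_or]
        exact ⟨hne, hn1⟩
      rw [this]
      exact ih h7

theorem coll_check : checkColl collapseSeq = true := by decide +kernel

theorem coll_end : Coll (fam collapseEnd) := by
  have h : fam collapseEnd = {∅, {(8 : V)}} := by decide +kernel
  rw [h]
  intro S hb _
  exact hb 8

theorem order_sub_faces : allB (fun a => memB a faces) (orderFaces collapseSeq) = true := by
  decide +kernel

theorem faces_sub_order : allB (fun a => memB a (orderFaces collapseSeq)) faces = true := by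
  decide +kernel

theorem K_eq_order : K = fam (orderFaces collapseSeq) := by
  have h1 := order_sub_faces
  have h2 := faces_sub_order
  rw [allB_iff] at h1 h2
  ext σ
  rw [K, mem_fam, mem_fam]
  constructor
  · rintro ⟨a, ha, h⟩
    exact ⟨a, (memB_iff _ _).1 (h2 a ha), h⟩
  · rintro ⟨a, ha, h⟩
    exact ⟨a, (memB_iff _ _).1 (h1 a ha), h⟩

theorem K_coll : Coll K := by
  rw [K_eq_order]
  exact checkColl_spec coll_end _ coll_check

end Pool.Agent.Hhelper45
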