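import Mathlib
import Pool.Agent.Hhelper45.BallMain

set_option autoImplicit false

/-!
# Evasiveness of the 4-ball

The certificate: a list `reach2` of vertex sets `U` such that the induced subcomplex on `U` is
evasive.  Deleting a vertex from such a complex leads to a complex with nonzero reduced Euler
characteristic or to another member of the list, except for the two suspension vertices, whose
links are again members of the list.
-/

namespace Pool.Agent.Hhelper45

open Finset

/-- The reduced Euler characteristic (up to sign). -/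
def chi (L : Finset (Finset V)) : ℤ := ∑ σ ∈ L, (-1) ^ σ.card

theorem chi_step (L : Finset (Finset V)) (hL : Closed L) (v : V) :
    chi L = chi (L.filter (fun σ => v ∉ σ)) -
      chi (L.filter (fun σ => v ∉ σ ∧ insert v σ ∈ L)) := by
  unfold chi
  rw [← Finset.sum_filter_add_sum_filter_not L (fun σ => v ∉ σ)]
  have h : ∑ σ ∈ L.filter (fun σ => ¬ v ∉ σ), (-1 : ℤ) ^ σ.card =
      - ∑ σ ∈ L.filter (fun σ => v ∉ σ ∧ insert v σ ∈ L), (-1 : ℤ) ^ σ.card := by
    rw [← Finset.sum_neg_distrib]
    refine Finset.sum_bij' (fun σ _ => σ.erase v) (fun ρ _ => insert v ρ) ?_ ?_ ?_ ?_ ?_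
    · intro σ hσ
      rw [Finset.mem_filter, not_not] at hσ
      rw [Finset.mem_filter]
      refine ⟨hL σ hσ.1 _ (Finset.erase_subset _ _), Finset.notMem_erase _ _, ?_⟩
      rw [Finset.insert_erase hσ.2]; exact hσ.1
    · intro ρ hρ
      rw [Finset.mem_filter] at hρ
      rw [Finset.mem_filter, not_not]
      exact ⟨hρ.2.2, Finset.mem_insert_self _ _⟩
    · intro σ hσ
      rw [Finset.mem_filter, not_not] at hσ
      exact Finset.insert_erase hσ.2
    · intro ρ hρ
      rw [Finset.mem_filter] at hρ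
      exact Finset.erase_insert hρ.2.1
    · intro σ hσ
      rw [Finset.mem_filter, not_not] at hσ
      have h1 : σ.card = (σ.erase v).card + 1 := by
        rw [Finset.card_erase_of_mem hσ.2]
        have := Finset.card_pos.2 ⟨v, hσ.2⟩
        omega
      rw [h1, pow_succ]; ring
  rw [h]; ring

/-- The induced subcomplex on the vertex set coded by `U`. -/
def KU (U : ℕ) : Finset (Finset V) := K.filter (fun σ => σ ⊆ dec U)

theorem mem_KU {U : ℕ} {σ : Finset V} : σ ∈ KU U ↔ σ ∈ K ∧ σ ⊆ dec U := by
  rw [KU, Finset.mem_filter]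

theorem KU_eq_fam (U : ℕ) : KU U = fam (faces.filter (fun a => sub a U)) := by
  ext σ
  rw [mem_KU, K, mem_fam, mem_fam]
  constructor
  · rintro ⟨⟨a, ha, rfl⟩, h⟩
    exact ⟨a, by rw [List.mem_filter]; exact ⟨ha, sub_of_subset (faces_lt a ha) h⟩, rfl⟩
  · rintro ⟨a, ha, rfl⟩
    rw [List.mem_filter] at ha
    exact ⟨⟨a, ha.1, rfl⟩, sub_imp ha.2⟩

theorem sum_fam (l : List ℕ) (hl : ∀ x ∈ l, x < 8192) (hn : l.Nodup) (g : Finset V → ℤ) :
    ∑ σ ∈ fam l, g σ = (l.map (fun a => g (dec a))).sum := by
  rw [fam, List.sum_toFinset]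
  · rw [List.map_map]; rfl
  · exact hn.map_on (fun a ha b hb h => dec_inj (hl a ha) (hl b hb) h)

theorem sum_const_list (l : List ℕ) (c : ℤ) (g : ℕ → ℤ) (h : ∀ a ∈ l, g a = c) :
    (l.map g).sum = c * l.length := by
  induction l with
  | nil => simp
  | cons a t ih =>
    rw [List.map_cons, List.sum_cons, h a (by simp), ih (fun b hb => h b (by simp [hb])),
      List.length_cons]
    push_cast; ring

theorem chi_KU (U : ℕ) : chi (KU U) = (cntB U facesE : ℤ) - (cntB U facesO : ℤ) := by
  rw [chi, KU_eq_fam, sum_fam _ (fun x hx => faces_lt x (List.mem_of_mem_filter hx))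
    (faces_nodup.filter _), faces, List.filter_append, List.map_append, List.sum_append,
    cntB_eq, cntB_eq]
  rw [sum_const_list _ 1, sum_const_list _ (-1)]
  · ring
  · intro a ha
    have := facesO_odd a (List.mem_of_mem_filter ha)
    exact Odd.neg_one_pow (Nat.odd_iff.2 this)
  · intro a ha
    have := facesE_even a (List.mem_of_mem_filter ha)
    exact Even.neg_one_pow (Nat.even_iff.2 this)

/-- The certificate check. -/
def checkNE : Bool :=
  allB (fun U => allB (fun i => or (not (Nat.testBit U i))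
    (or (memB (Nat.xor U (Nat.pow 2 i)) reach2)
      (or (and (Nat.ble 11 i) (and (and (Nat.testBit U 11) (Nat.testBit U 12))
        (memB (Nat.land U 2047) reach2)))
        (not (Nat.beq (cntB (Nat.xor U (Nat.pow 2 i)) facesE)
          (cntB (Nat.xor U (Nat.pow 2 i)) facesO)))))) vts) reach2

theorem checkNE_true : checkNE = true := by decide +kernel

theorem no_both : allB (fun a => not (and (Nat.testBit a 11) (Nat.testBit a 12))) faces = true := by
  decide +kernel

theorem susp_check : allB (fun a => or (or (Nat.testBit a 11) (Nat.testBit a 12))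
    (and (memB (Nat.lor a (Nat.pow 2 11)) faces) (memB (Nat.lor a (Nat.pow 2 12)) faces)))
    faces = true := by
  decide +kernel

theorem two_check : allB (fun U => anyB (fun i => anyB (fun j => and (not (Nat.beq i j))
    (and (Nat.testBit U i) (Nat.testBit U j))) vts) vts) reach2 = true := by
  decide +kernel

theorem vert_check : allB (fun i => memB (Nat.pow 2 i) faces) vts = true := by
  decide +kernel

theorem reach2_full : memB 8191 reach2 = true := by decide +kernel

theorem reach2_lt : allB (fun U => Nat.blt U 8192) reach2 = true := by decide +kernel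

theorem vts_lt {i : ℕ} (h : i ∈ vts) : i < 13 := by
  revert h
  simp only [vts, List.mem_cons, List.not_mem_nil, or_false]
  omega

theorem singleton_mem_K (i : V) : ({i} : Finset V) ∈ K := by
  have h := vert_check
  rw [allB_iff] at h
  have h1 := h i.val (mem_vts i)
  rw [memB_iff] at h1
  have h2 : dec (2 ^ i.val) = {i} := by
    ext x
    rw [mem_dec, Nat.testBit_two_pow, Finset.mem_singleton]
    simp only [decide_eq_true_eq]
    constructor
    · intro h; exact Fin.ext h.symm
    · intro h; rw [h]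
  rw [← h2, K, mem_fam]
  exact ⟨_, h1, rfl⟩

/-- In the suspension, the link of a suspension vertex consists of the faces avoiding both
suspension vertices. -/
theorem link_mem (v : V) (hv : v = 11 ∨ v = 12) (σ : Finset V) (hσ : σ ∈ K) :
    (v ∉ σ ∧ insert v σ ∈ K) ↔ ((11 : V) ∉ σ ∧ (12 : V) ∉ σ) := by
  have hb : ∀ ρ ∈ K, ¬ ((11 : V) ∈ ρ ∧ (12 : V) ∈ ρ) := by
    intro ρ hρ
    rw [K, mem_fam] at hρ
    obtain ⟨a, ha, rfl⟩ := hρ
    have h := no_both
    rw [allB_iff] at h
    have h1 := h a ha
    rintro ⟨h2, h3⟩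
    rw [mem_dec] at h2 h3
    have h2' : Nat.testBit a 11 = true := h2
    have h3' : Nat.testBit a 12 = true := h3
    rw [h2', h3'] at h1
    simp at h1
  constructor
  · rintro ⟨h1, h2⟩
    have h3 := hb _ h2
    rcases hv with rfl | rfl
    · refine ⟨h1, fun h4 => h3 ⟨Finset.mem_insert_self _ _, Finset.mem_insert_of_mem h4⟩⟩
    · refine ⟨fun h4 => h3 ⟨Finset.mem_insert_of_mem h4, Finset.mem_insert_self _ _⟩, h1⟩
  · rintro ⟨h1, h2⟩
    rw [K, mem_fam] at hσ
    obtain ⟨a, ha, rfl⟩ := hσ
    have h := susp_check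
    rw [allB_iff] at h
    have h3 := h a ha
    have h1' : Nat.testBit a 11 = false := by
      rw [mem_dec] at h1
      simpa using h1
    have h2' : Nat.testBit a 12 = false := by
      rw [mem_dec] at h2
      simpa using h2
    rw [h1', h2'] at h3
    simp only [Bool.or_false, Bool.false_or, Bool.and_eq_true, memB_iff] at h3
    rcases hv with rfl | rfl
    · refine ⟨h1, ?_⟩
      rw [← dec_insert (a := a) (i := 11), K, mem_fam]
      exact ⟨_, h3.1, rfl⟩
    · refine ⟨h2, ?_⟩
      rw [← dec_insert (a := a) (i := 12), K, mem_fam]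
      exact ⟨_, h3.2, rfl⟩

theorem subset_land (U : ℕ) (σ : Finset V) :
    σ ⊆ dec (U &&& 2047) ↔ σ ⊆ dec U ∧ (11 : V) ∉ σ ∧ (12 : V) ∉ σ := by
  have hbit : ∀ i : V, (2047 : ℕ).testBit i.val = true ↔ (i ≠ 11 ∧ i ≠ 12) := by decide
  constructor
  · intro h
    refine ⟨?_, ?_, ?_⟩
    · intro i hi
      have := h hi
      rw [mem_dec, Nat.testBit_and, Bool.and_eq_true] at this
      rw [mem_dec]; exact this.1
    · intro hi
      have := h hi
      rw [mem_dec, Nat.testBit_and, Bool.and_eq_true, hbit] at this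
      exact this.2.1 rfl
    · intro hi
      have := h hi
      rw [mem_dec, Nat.testBit_and, Bool.and_eq_true, hbit] at this
      exact this.2.2 rfl
  · rintro ⟨h1, h2, h3⟩ i hi
    have := h1 hi
    rw [mem_dec] at this
    rw [mem_dec, Nat.testBit_and, this, Bool.true_and, hbit]
    exact ⟨fun h => h2 (h ▸ hi), fun h => h3 (h ▸ hi)⟩

theorem link_KU (U : ℕ) (v : V) (hv : v = 11 ∨ v = 12) (h11 : (11 : V) ∈ dec U)
    (h12 : (12 : V) ∈ dec U) :
    (KU U).filter (fun σ => v ∉ σ ∧ insert v σ ∈ KU U) = KU (U &&& 2047) := by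
  ext σ
  rw [Finset.mem_filter, mem_KU, mem_KU, mem_KU, subset_land]
  constructor
  · rintro ⟨⟨h1, h2⟩, h3, h4, _⟩
    exact ⟨h1, h2, (link_mem v hv σ h1).1 ⟨h3, h4⟩⟩
  · rintro ⟨h1, h2, h3⟩
    obtain ⟨h4, h5⟩ := (link_mem v hv σ h1).2 h3
    refine ⟨⟨h1, h2⟩, h4, h5, ?_⟩
    rw [Finset.insert_subset_iff]
    refine ⟨?_, h2⟩
    rcases hv with rfl | rfl
    · exact h11
    · exact h12

theorem del_KU (U : ℕ) (v : V) (hv : v ∈ dec U) :
    (KU U).filter (fun σ => v ∉ σ) = KU (U ^^^ (2 ^ v.val)) := by
  ext σ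
  rw [Finset.mem_filter, mem_KU, mem_KU, dec_erase hv, Finset.subset_erase]
  constructor
  · rintro ⟨⟨h1, h2⟩, h3⟩
    exact ⟨h1, h2, h3⟩
  · rintro ⟨h1, h2, h3⟩
    exact ⟨⟨h1, h2⟩, h3⟩

theorem K_eq_KU : K = KU 8191 := by
  ext σ
  rw [mem_KU]
  constructor
  · intro h
    have hall : ∀ i : V, Nat.testBit 8191 i.val = true := by decide
    refine ⟨h, fun i _ => ?_⟩
    rw [mem_dec]
    exact hall i
  · exact fun h => h.1

theorem closed_del (L : Finset (Finset V)) (hL : Closed L) (v : V) :
    Closed (L.filter (fun σ => v ∉ σ)) := by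
  intro σ hσ τ hτ
  rw [Finset.mem_filter] at *
  exact ⟨hL σ hσ.1 τ hτ, fun h => hσ.2 (hτ h)⟩

theorem closed_link (L : Finset (Finset V)) (hL : Closed L) (v : V) :
    Closed (L.filter (fun σ => v ∉ σ ∧ insert v σ ∈ L)) := by
  intro σ hσ τ hτ
  rw [Finset.mem_filter] at *
  exact ⟨hL σ hσ.1 τ hτ, fun h => hσ.2.1 (hτ h),
    hL _ hσ.2.2 _ (Finset.insert_subset_insert v hτ)⟩

/-- The complex is evasive. -/
theorem K_evasive : ¬ (∀ S : Finset (Finset V) → Prop,
        (∀ v : V, S {∅, {v}}) →
        (∀ L : Finset (Finset V), ∀ v : V, {v} ∈ L →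
          S (L.filter (fun σ => v ∉ σ)) →
          S (L.filter (fun σ => v ∉ σ ∧ insert v σ ∈ L)) → S L) →
        S K) := by
  intro hall
  have hQ := hall (fun L => Closed L → chi L = 0 ∧ ∀ U ∈ reach2, L ≠ KU U) ?_ ?_
  · have h := hQ K_closed
    exact h.2 8191 ((memB_iff _ _).1 reach2_full) K_eq_KU
  · intro v _
    refine ⟨?_, ?_⟩
    · have hne : (∅ : Finset V) ≠ {v} := (Finset.singleton_ne_empty v).symm
      rw [chi, Finset.sum_pair hne]
      simp
    · intro U hU heq
      have h := two_check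
      rw [allB_iff] at h
      have h1 := h U hU
      rw [anyB_iff] at h1
      obtain ⟨i, hi, h2⟩ := h1
      rw [anyB_iff] at h2
      obtain ⟨j, hj, h3⟩ := h2
      simp only [Bool.and_eq_true] at h3
      obtain ⟨h4, h5, h6⟩ := h3
      have hi' := vts_lt hi
      have hj' := vts_lt hj
      have hij : i ≠ j := by
        intro hij
        rw [hij] at h4
        simp at h4
      have key : ∀ k : V, k ∈ dec U → k = v := by
        intro k hk
        have : ({k} : Finset V) ∈ KU U := by
          rw [mem_KU]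
          exact ⟨singleton_mem_K k, Finset.singleton_subset_iff.2 hk⟩
        rw [← heq, Finset.mem_insert, Finset.mem_singleton] at this
        rcases this with h7 | h7
        · exact absurd h7 (Finset.singleton_ne_empty k)
        · exact Finset.singleton_injective h7
      have e1 := key ⟨i, hi'⟩ (mem_dec.2 h5)
      have e2 := key ⟨j, hj'⟩ (mem_dec.2 h6)
      apply hij
      have := e1.trans e2.symm
      exact congrArg Fin.val this
  · intro L v hvL hdel hlink hL
    obtain ⟨hd1, hd2⟩ := hdel (closed_del L hL v)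
    obtain ⟨hl1, hl2⟩ := hlink (closed_link L hL v)
    refine ⟨by rw [chi_step L hL v, hd1, hl1, sub_zero], ?_⟩
    intro U hU heq
    have hvU : v ∈ dec U := by
      rw [heq, mem_KU] at hvL
      exact Finset.singleton_subset_iff.1 hvL.2
    rw [heq, del_KU U v hvU] at hd1 hd2
    have h := checkNE_true
    rw [checkNE, allB_iff] at h
    have h1 := h U hU
    rw [allB_iff] at h1
    have h2 := h1 v.val (mem_vts v)
    simp only [Bool.or_eq_true, Bool.and_eq_true, memB_iff] at h2
    rcases h2 with h2 | h2 | ⟨h2, ⟨h3, h4⟩, h5⟩ | h2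
    · rw [mem_dec] at hvU
      rw [hvU] at h2
      simp at h2
    · exact hd2 _ h2 rfl
    · have hv : v = 11 ∨ v = 12 := by
        have h6 : 11 ≤ v.val := Nat.le_of_ble_eq_true h2
        have h7 := v.isLt
        rcases Nat.lt_or_ge v.val 12 with h8 | h8
        · left; apply Fin.ext; change v.val = 11; omega
        · right; apply Fin.ext; change v.val = 12; omega
      have h11 : (11 : V) ∈ dec U := mem_dec.2 h3
      have h12 : (12 : V) ∈ dec U := mem_dec.2 h4
      apply hl2 _ h5
      rw [heq]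
      exact link_KU U v hv h11 h12
    · rw [chi_KU] at hd1
      have h6 : cntB (U ^^^ 2 ^ v.val) facesE = cntB (U ^^^ 2 ^ v.val) facesO := by
        have : (cntB (U ^^^ 2 ^ v.val) facesE : ℤ) = (cntB (U ^^^ 2 ^ v.val) facesO : ℤ) := by
          linarith
        exact_mod_cast this
      have h7 : Nat.beq (cntB (Nat.xor U (Nat.pow 2 v.val)) facesE)
          (cntB (Nat.xor U (Nat.pow 2 v.val)) facesO) = true := by
        rw [Nat.beq_eq]; exact h6
      rw [h7] at h2
      simp at h2

end Pool.Agent.Hhelper45
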